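import Pool.Agent.N139.Fock.Bdd

/-!
# Radial-derivative characterisation of Fock spaces

For every `n`, every `0 < p ≤ ∞`, every `α > 0`, every `N ≥ 1` and every entire `f` on `ℂⁿ`,
`f ∈ F^p_α` if and only if `R^N f(z) / (1+|z|²)^N ∈ L^p_α`.
-/

set_option autoImplicit false

open MeasureTheory

namespace Pool.Agent.Results.MP_bbe01f_an.RadialDerivativeFock

/-- `|z|² = |z_1|² + ⋯ + |z_n|²`. -/
noncomputable def sqAbs {n : ℕ} (z : Fin n → ℂ) : ℝ := ∑ k, ‖z k‖ ^ 2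

/-- `g ∈ L^p_α`: the function `g(z) e^{-α|z|²/2}` lies in `L^p(ℂⁿ, dv)`.  Here `volume` on
`Fin n → ℂ` is the product Lebesgue measure. -/
def MemL {n : ℕ} (p : ENNReal) (α : ℝ) (g : (Fin n → ℂ) → ℂ) : Prop :=
  MemLp (fun z => g z * (Real.exp (-(α * sqAbs z / 2)) : ℂ)) p volume

/-- `f ∈ F^p_α = L^p_α ∩ H(ℂⁿ)`. -/
def MemF {n : ℕ} (p : ENNReal) (α : ℝ) (f : (Fin n → ℂ) → ℂ) : Prop :=
  Differentiable ℂ f ∧ MemL p α f

/-- The radial derivative `R f(z) = ∑ z_k ∂f/∂z_k (z)`. -/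
noncomputable def R {n : ℕ} (f : (Fin n → ℂ) → ℂ) (z : Fin n → ℂ) : ℂ :=
  ∑ k, z k * fderiv ℂ f z (Pi.single k 1)

/-- `f ∈ F^p_α ↔ R^N f / (1+|z|²)^N ∈ L^p_α`, for all `n ≥ 1`, `0 < p ≤ ∞`, `α > 0`, `N ≥ 1` and
all entire `f` on `ℂⁿ`. -/
theorem result (n : ℕ) (_hn : 1 ≤ n) (p : ENNReal) (hp : 0 < p) (α : ℝ) (hα : 0 < α)
    (N : ℕ) (_hN : 1 ≤ N) (f : (Fin n → ℂ) → ℂ) (hf : Differentiable ℂ f) :
    MemF p α f ↔ MemL p α (fun z => (R^[N] f) z / ((1 + sqAbs z : ℝ) : ℂ) ^ N) := by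
  have h := (Pool.Agent.N139.Fock.iterate_iff (n := n) hα hp.ne' N hf).2
  have h0 : Pool.Agent.N139.Fock.Fk α 0 f =
      fun z => f z * (Real.exp (-(α * sqAbs z / 2)) : ℂ) := by
    funext z
    unfold Pool.Agent.N139.Fock.Fk
    rw [pow_zero, div_one]
    rfl
  rw [h0] at h
  exact ⟨fun h1 => h.1 h1.2, fun h1 => ⟨hf, h.2 h1⟩⟩

end Pool.Agent.Results.MP_bbe01f_an.RadialDerivativeFock
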